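import Pool.Agent.Y826.Z.Defs3

/-! Project Y826/Z: bilinear sums with the weight `Phi`, `S_BX` from `S_TII`.

The weight is expanded into a Fourier series in `log (m n / X)`, which separates the variables. -/

set_option autoImplicit false

open Finset Filter

namespace Pool.Agent.Y674.ZB

open Pool.Agent.Y826.Z
open Pool.Agent (H378R2.Phi)
open Pool.Agent.H378R2 (Phi)
open scoped Real

/-! ### The Fourier series of the weight -/

lemma bern2 (x : ℝ) : (Polynomial.map (algebraMap ℚ ℝ) (Polynomial.bernoulli 2)).eval x =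
    x ^ 2 - x + 1 / 6 := by
  rw [Polynomial.bernoulli]
  simp [sum_range_succ, bernoulli_eq_bernoulli'_of_ne_one, bernoulli'_two, Nat.choose]
  ring

lemma cos_series {x : ℝ} (hx : |x| ≤ 1) :
    HasSum (fun n : ℕ => 1 / (n : ℝ) ^ 2 * Real.cos (2 * π * n * x)) (π ^ 2 * (x ^ 2 - |x| + 1 / 6)) := by
  have h := hasSum_one_div_nat_pow_mul_cos (k := 1) one_ne_zero (x := |x|) ⟨abs_nonneg x, hx⟩
  have e1 : ∀ n : ℕ, Real.cos (2 * π * n * |x|) = Real.cos (2 * π * n * x) := by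
    intro n
    have : 2 * π * n * |x| = |2 * π * n * x| := by
      rw [abs_mul, abs_of_nonneg (by positivity : (0 : ℝ) ≤ 2 * π * n)]
    rw [this, Real.cos_abs]
  simp only [mul_one, e1] at h
  have e2 : (-1 : ℝ) ^ (1 + 1) * (2 * π) ^ 2 / 2 / (Nat.factorial 2 : ℝ) = π ^ 2 := by
    norm_num [Nat.factorial]
    ring
  rw [bern2, sq_abs, e2] at h
  exact h

lemma tent_id (v : ℝ) : |v / 8| - 2 * |v / 8 - 1 / 16| + |v / 8 - 1 / 8| =
    max 0 (1 / 2 - |v - 1 / 2|) / 4 := by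
  rcases le_total v 0 with h | h
  · rw [abs_of_nonpos (by linarith : v / 8 ≤ 0), abs_of_nonpos (by linarith : v / 8 - 1 / 16 ≤ 0),
      abs_of_nonpos (by linarith : v / 8 - 1 / 8 ≤ 0), abs_of_nonpos (by linarith : v - 1 / 2 ≤ 0),
      max_eq_left (by linarith)]
    ring
  · rcases le_total v (1 / 2) with h1 | h1
    · rw [abs_of_nonneg (by linarith : 0 ≤ v / 8), abs_of_nonpos (by linarith : v / 8 - 1 / 16 ≤ 0),
        abs_of_nonpos (by linarith : v / 8 - 1 / 8 ≤ 0), abs_of_nonpos (by linarith : v - 1 / 2 ≤ 0),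
        max_eq_right (by linarith)]
      ring
    · rcases le_total v 1 with h2 | h2
      · rw [abs_of_nonneg (by linarith : 0 ≤ v / 8), abs_of_nonneg (by linarith : 0 ≤ v / 8 - 1 / 16),
          abs_of_nonpos (by linarith : v / 8 - 1 / 8 ≤ 0), abs_of_nonneg (by linarith : 0 ≤ v - 1 / 2),
          max_eq_right (by linarith)]
        ring
      · rw [abs_of_nonneg (by linarith : 0 ≤ v / 8), abs_of_nonneg (by linarith : 0 ≤ v / 8 - 1 / 16),
          abs_of_nonneg (by linarith : 0 ≤ v / 8 - 1 / 8), abs_of_nonneg (by linarith : 0 ≤ v - 1 / 2),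
          max_eq_left (by linarith)]
        ring

lemma Phi_series {u : ℝ} (hv : |Real.log u| ≤ 7) :
    HasSum (fun n : ℕ => 1 / (n : ℝ) ^ 2 * (Real.cos (2 * π * n * (Real.log u / 8)) -
      2 * Real.cos (2 * π * n * (Real.log u / 8 - 1 / 16)) +
      Real.cos (2 * π * n * (Real.log u / 8 - 1 / 8)))) (π ^ 2 * (1 / 128 - Phi u / 4)) := by
  set v : ℝ := Real.log u with hvd
  rw [abs_le] at hv
  have h0 := cos_series (x := v / 8) (by rw [abs_le]; constructor <;> linarith)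
  have h1 := cos_series (x := v / 8 - 1 / 16) (by rw [abs_le]; constructor <;> linarith)
  have h2 := cos_series (x := v / 8 - 1 / 8) (by rw [abs_le]; constructor <;> linarith)
  have h3 := (h0.sub (h1.mul_left 2)).add h2
  have ht := tent_id v
  have hP : Phi u = max 0 (1 / 2 - |v - 1 / 2|) := rfl
  have e1 : π ^ 2 * (1 / 128 - Phi u / 4) =
      π ^ 2 * ((v / 8) ^ 2 - |v / 8| + 1 / 6) -
        2 * (π ^ 2 * ((v / 8 - 1 / 16) ^ 2 - |v / 8 - 1 / 16| + 1 / 6)) +
      π ^ 2 * ((v / 8 - 1 / 8) ^ 2 - |v / 8 - 1 / 8| + 1 / 6) := by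
    rw [hP, show max 0 (1 / 2 - |v - 1 / 2|) = 4 * (|v / 8| - 2 * |v / 8 - 1 / 16| + |v / 8 - 1 / 8|) by
      rw [ht]; ring]
    ring
  rw [e1]
  refine Eq.mp (congrArg (fun f : ℕ → ℝ => HasSum f _) (funext fun n => ?_)) h3
  ring

/-! ### Separation of the variables -/

lemma sep {X : ℝ} (hX : 0 < X) (I J : Finset ℕ) (E : ℕ → ℕ → ℝ) (α β : ℕ → ℝ) (T : ℝ)
    (hT : ∀ a b : ℕ → ℝ, (∀ m, |a m| ≤ |α m|) → (∀ n, |b n| ≤ |β n|) →
      |∑ m ∈ I, ∑ n ∈ J, a m * b n * E m n| ≤ T)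
    (hI : ∀ m ∈ I, 0 < m) (hJ : ∀ n ∈ J, 0 < n)
    (hv : ∀ m ∈ I, ∀ n ∈ J, |Real.log (((m * n : ℕ) : ℝ) / X)| ≤ 7) :
    |∑ m ∈ I, ∑ n ∈ J, α m * β n * Phi (((m * n : ℕ) : ℝ) / X) * E m n| ≤ 6 * T := by
  set A1 : ℕ → ℕ → ℝ := fun k m => Real.cos (2 * π * k * (Real.log m / 8)) with hA1
  set A2 : ℕ → ℕ → ℝ := fun k m => Real.sin (2 * π * k * (Real.log m / 8)) with hA2
  set w : ℕ → ℝ := fun n => Real.log n - Real.log X with hw
  set B1 : ℕ → ℕ → ℝ := fun k n => Real.cos (2 * π * k * (w n / 8)) -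
    2 * Real.cos (2 * π * k * (w n / 8 - 1 / 16)) + Real.cos (2 * π * k * (w n / 8 - 1 / 8)) with hB1
  set B2 : ℕ → ℕ → ℝ := fun k n => Real.sin (2 * π * k * (w n / 8)) -
    2 * Real.sin (2 * π * k * (w n / 8 - 1 / 16)) + Real.sin (2 * π * k * (w n / 8 - 1 / 8)) with hB2
  have hA1b : ∀ k m, |A1 k m| ≤ 1 := fun k m => Real.abs_cos_le_one _
  have hA2b : ∀ k m, |A2 k m| ≤ 1 := fun k m => Real.abs_sin_le_one _
  have hB1b : ∀ k n, |B1 k n / 4| ≤ 1 := by
    intro k n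
    have h1 := abs_le.1 (Real.abs_cos_le_one (2 * π * k * (w n / 8)))
    have h2 := abs_le.1 (Real.abs_cos_le_one (2 * π * k * (w n / 8 - 1 / 16)))
    have h3 := abs_le.1 (Real.abs_cos_le_one (2 * π * k * (w n / 8 - 1 / 8)))
    rw [abs_le]
    constructor <;> simp only [hB1] <;> linarith [h1.1, h1.2, h2.1, h2.2, h3.1, h3.2]
  have hB2b : ∀ k n, |B2 k n / 4| ≤ 1 := by
    intro k n
    have h1 := abs_le.1 (Real.abs_sin_le_one (2 * π * k * (w n / 8)))
    have h2 := abs_le.1 (Real.abs_sin_le_one (2 * π * k * (w n / 8 - 1 / 16)))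
    have h3 := abs_le.1 (Real.abs_sin_le_one (2 * π * k * (w n / 8 - 1 / 8)))
    rw [abs_le]
    constructor <;> simp only [hB2] <;> linarith [h1.1, h1.2, h2.1, h2.2, h3.1, h3.2]
  have hT0 : 0 ≤ T := (abs_nonneg _).trans (hT α β (fun _ => le_rfl) (fun _ => le_rfl))
  have key : ∀ m ∈ I, ∀ n ∈ J, HasSum (fun k : ℕ => α m * β n * E m n *
      (1 / (k : ℝ) ^ 2 * (A1 k m * B1 k n - A2 k m * B2 k n)))
      (α m * β n * E m n * (π ^ 2 * (1 / 128 - Phi (((m * n : ℕ) : ℝ) / X) / 4))) := by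
    intro m hm n hn
    have h := (Phi_series (hv m hm n hn)).mul_left (α m * β n * E m n)
    have hm0 : (m : ℝ) ≠ 0 := by exact_mod_cast (hI m hm).ne'
    have hn0 : (n : ℝ) ≠ 0 := by exact_mod_cast (hJ n hn).ne'
    have e1 : Real.log (((m * n : ℕ) : ℝ) / X) = Real.log m + w n := by
      rw [Nat.cast_mul, Real.log_div (mul_ne_zero hm0 hn0) hX.ne', Real.log_mul hm0 hn0, hw]
      ring
    rw [e1] at h
    have e2 : ∀ (k : ℕ) (t : ℝ), Real.cos (2 * π * k * ((Real.log m + w n) / 8 - t)) =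
        A1 k m * Real.cos (2 * π * k * (w n / 8 - t)) -
          A2 k m * Real.sin (2 * π * k * (w n / 8 - t)) := by
      intro k t
      have : 2 * π * k * ((Real.log m + w n) / 8 - t) =
        2 * π * k * (Real.log m / 8) + 2 * π * k * (w n / 8 - t) := by ring
      rw [this, Real.cos_add]
    have e3 : ∀ (k : ℕ), Real.cos (2 * π * k * ((Real.log m + w n) / 8)) =
        A1 k m * Real.cos (2 * π * k * (w n / 8)) -
          A2 k m * Real.sin (2 * π * k * (w n / 8)) := by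
      intro k
      have := e2 k 0
      simpa only [sub_zero] using this
    refine Eq.mp (congrArg (fun f : ℕ → ℝ => HasSum f _) (funext fun k => ?_)) h
    rw [e2, e2, e3]
    simp only [hB1, hB2]
    ring
  have hsum := hasSum_sum fun m hm => hasSum_sum fun n hn => key m hm n hn
  have hz : HasSum (fun k : ℕ => 8 * T * (1 / (k : ℝ) ^ 2)) (8 * T * (π ^ 2 / 6)) :=
    hasSum_zeta_two.mul_left _
  have hb : ∀ k : ℕ, ‖∑ m ∈ I, ∑ n ∈ J, α m * β n * E m n *
      (1 / (k : ℝ) ^ 2 * (A1 k m * B1 k n - A2 k m * B2 k n))‖ ≤ 8 * T * (1 / (k : ℝ) ^ 2) := by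
    intro k
    have h1 := hT (fun m => α m * A1 k m) (fun n => β n * (B1 k n / 4)) (fun m => by
        rw [abs_mul]
        exact mul_le_of_le_one_right (abs_nonneg _) (hA1b k m)) (fun n => by
        rw [abs_mul]
        exact mul_le_of_le_one_right (abs_nonneg _) (hB1b k n))
    have h2 := hT (fun m => α m * A2 k m) (fun n => β n * (B2 k n / 4)) (fun m => by
        rw [abs_mul]
        exact mul_le_of_le_one_right (abs_nonneg _) (hA2b k m)) (fun n => by
        rw [abs_mul]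
        exact mul_le_of_le_one_right (abs_nonneg _) (hB2b k n))
    have e : ∑ m ∈ I, ∑ n ∈ J, α m * β n * E m n *
        (1 / (k : ℝ) ^ 2 * (A1 k m * B1 k n - A2 k m * B2 k n)) =
        1 / (k : ℝ) ^ 2 * (4 * (∑ m ∈ I, ∑ n ∈ J, (α m * A1 k m) * (β n * (B1 k n / 4)) * E m n) -
          4 * (∑ m ∈ I, ∑ n ∈ J, (α m * A2 k m) * (β n * (B2 k n / 4)) * E m n)) := by
      rw [mul_sum, mul_sum, ← sum_sub_distrib, mul_sum]
      refine sum_congr rfl fun m _ => ?_
      rw [mul_sum, mul_sum, ← sum_sub_distrib, mul_sum]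
      refine sum_congr rfl fun n _ => ?_
      ring
    rw [e, Real.norm_eq_abs, abs_mul, abs_of_nonneg (by positivity : (0 : ℝ) ≤ 1 / (k : ℝ) ^ 2),
      mul_comm]
    refine mul_le_mul_of_nonneg_right ?_ (by positivity)
    rw [abs_le] at h1 h2 ⊢
    constructor <;> linarith [h1.1, h1.2, h2.1, h2.2]
  have hfin := hsum.norm_le_of_bounded hz hb
  have e4 : ∑ m ∈ I, ∑ n ∈ J, α m * β n * E m n *
      (π ^ 2 * (1 / 128 - Phi (((m * n : ℕ) : ℝ) / X) / 4)) =
      π ^ 2 * (1 / 128 * (∑ m ∈ I, ∑ n ∈ J, α m * β n * E m n) -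
        (∑ m ∈ I, ∑ n ∈ J, α m * β n * Phi (((m * n : ℕ) : ℝ) / X) * E m n) / 4) := by
    rw [mul_sum, sum_div, ← sum_sub_distrib, mul_sum]
    refine sum_congr rfl fun m _ => ?_
    rw [mul_sum, sum_div, ← sum_sub_distrib, mul_sum]
    refine sum_congr rfl fun n _ => ?_
    ring
  have hπ : 0 < π ^ 2 := by positivity
  rw [e4, Real.norm_eq_abs, abs_mul, abs_of_pos hπ] at hfin
  have h5 : |1 / 128 * (∑ m ∈ I, ∑ n ∈ J, α m * β n * E m n) -
        (∑ m ∈ I, ∑ n ∈ J, α m * β n * Phi (((m * n : ℕ) : ℝ) / X) * E m n) / 4| ≤ 4 / 3 * T := by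
    have : π ^ 2 * |1 / 128 * (∑ m ∈ I, ∑ n ∈ J, α m * β n * E m n) -
        (∑ m ∈ I, ∑ n ∈ J, α m * β n * Phi (((m * n : ℕ) : ℝ) / X) * E m n) / 4| ≤
        π ^ 2 * (4 / 3 * T) := by linarith
    exact le_of_mul_le_mul_left this hπ
  have h6 := hT α β (fun _ => le_rfl) (fun _ => le_rfl)
  rw [abs_le] at h5 h6 ⊢
  constructor <;> linarith [h5.1, h5.2, h6.1, h6.2]

/-! ### Dyadic blocks -/

lemma dyadic (a : ℕ) (F : ℕ → ℝ) (I : ℕ) : ∑ m ∈ Ioc a (2 ^ I * a), F m =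
    ∑ i ∈ range I, ∑ m ∈ Ioc (2 ^ i * a) (2 * (2 ^ i * a)), F m := by
  induction I with
  | zero => simp
  | succ I ih =>
    rw [sum_range_succ, ← ih]
    have h1 : a ≤ 2 ^ I * a := Nat.le_mul_of_pos_left _ (by positivity)
    have h2 : 2 ^ I * a ≤ 2 ^ (I + 1) * a := Nat.mul_le_mul_right _ (Nat.pow_le_pow_right (by norm_num) (by omega))
    have h3 : 2 * (2 ^ I * a) = 2 ^ (I + 1) * a := by ring
    rw [h3, sum_Ioc_consecutive _ h1 h2]

lemma Phi_low {u : ℝ} (hu0 : 0 < u) (hu : u ≤ 1) : Phi u = 0 := by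
  unfold Pool.Agent.H378R2.Phi
  have h1 : Real.log u ≤ 0 := Real.log_nonpos hu0.le hu
  rw [abs_of_nonpos (by linarith)]
  exact max_eq_left (by linarith)

lemma Phi_high {u : ℝ} (hu : 3 ≤ u) : Phi u = 0 := by
  unfold Pool.Agent.H378R2.Phi
  have h1 : 1 ≤ Real.log u := by
    rw [Real.le_log_iff_exp_le (by linarith)]
    have := Real.exp_one_lt_d9
    linarith
  rw [abs_of_nonneg (by linarith)]
  exact max_eq_left (by linarith)

lemma block_log {X : ℝ} (hX : 0 < X) {M N m n : ℕ} (h1 : X / 16 ≤ (M : ℝ) * N)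
    (h2 : (M : ℝ) * N ≤ 16 * X) (hm : m ∈ Ioc M (2 * M)) (hn : n ∈ Ioc N (2 * N)) :
    |Real.log (((m * n : ℕ) : ℝ) / X)| ≤ 7 := by
  rw [mem_Ioc] at hm hn
  have a1 : (M : ℝ) ≤ m := by exact_mod_cast hm.1.le
  have a2 : (m : ℝ) ≤ 2 * M := by exact_mod_cast hm.2
  have b1 : (N : ℝ) ≤ n := by exact_mod_cast hn.1.le
  have b2 : (n : ℝ) ≤ 2 * N := by exact_mod_cast hn.2
  have hM : (0 : ℝ) ≤ M := Nat.cast_nonneg _
  have hN : (0 : ℝ) ≤ N := Nat.cast_nonneg _
  have c1 : X / 16 ≤ ((m * n : ℕ) : ℝ) := by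
    rw [Nat.cast_mul]
    exact h1.trans (mul_le_mul a1 b1 hN (hM.trans a1))
  have c2 : ((m * n : ℕ) : ℝ) ≤ 64 * X := by
    rw [Nat.cast_mul]
    have := mul_le_mul a2 b2 (hN.trans b1) (by positivity)
    linarith
  have d1 : 1 / 16 ≤ ((m * n : ℕ) : ℝ) / X := by
    rw [le_div_iff₀ hX]
    linarith
  have d2 : ((m * n : ℕ) : ℝ) / X ≤ 64 := by
    rw [div_le_iff₀ hX]
    exact c2
  have hl2 := Real.log_two_lt_d9
  have e1 : Real.log (1 / 16) = -(4 * Real.log 2) := by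
    rw [one_div, Real.log_inv, show (16 : ℝ) = 2 ^ 4 by norm_num, Real.log_pow]
    norm_num
  have e2 : Real.log 64 = 6 * Real.log 2 := by
    rw [show (64 : ℝ) = 2 ^ 6 by norm_num, Real.log_pow]
    norm_num
  have f1 := Real.log_le_log (by norm_num) d1
  have f2 := Real.log_le_log (by linarith) d2
  rw [abs_le]
  constructor <;> linarith

/-- BX -/
theorem bx (hT : S_TII) : S_BX := by
  intro K h W b hyp δ hδ
  obtain ⟨ε, hε, H⟩ := hT K h W b hyp δ hδ
  refine ⟨ε, hε, fun A => ?_⟩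
  obtain ⟨B0, HB⟩ := H (A + 3)
  refine ⟨B0, fun B hB => ?_⟩
  have e1 : ∀ᶠ X : ℝ in atTop, (2 : ℝ) ≤ X ^ (1 / 3 : ℝ) :=
    (tendsto_rpow_atTop (by norm_num)).eventually_ge_atTop 2
  have e2 : ∀ᶠ X : ℝ in atTop, (96 : ℝ) ≤ Real.log X := Real.tendsto_log_atTop.eventually_ge_atTop 96
  filter_upwards [HB B hB, e1, e2, eventually_ge_atTop 3] with X HX hX1 hX2 hX3
  intro Q hQ hG S hS c hc α β hα hβ
  have hX0 : 0 < X := by linarith
  have hL : 0 < Real.log X := by linarith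
  obtain ⟨M0, hM0⟩ : ∃ M0, M0 = ⌊X ^ (1 / 3 : ℝ)⌋₊ := ⟨_, rfl⟩
  obtain ⟨n3, hn3⟩ : ∃ n3, n3 = ⌊3 * X⌋₊ := ⟨_, rfl⟩
  rw [← hM0, ← hn3]
  have hM0a : X ^ (1 / 3 : ℝ) / 16 ≤ M0 := by
    have := Nat.lt_floor_add_one (X ^ (1 / 3 : ℝ))
    rw [← hM0] at this
    linarith
  have hM01 : 1 ≤ M0 := by
    rw [hM0]
    exact Nat.le_floor (by norm_num; linarith)
  -- the number of blocks
  obtain ⟨I, hI⟩ : ∃ I, I = Nat.log 2 n3 + 1 := ⟨_, rfl⟩
  have hI1 : n3 ≤ 2 ^ I * M0 := by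
    have h1 : n3 < 2 ^ I := by rw [hI]; exact Nat.lt_pow_succ_log_self (by norm_num) _
    exact h1.le.trans (Nat.le_mul_of_pos_right _ hM01)
  have hn30 : n3 ≠ 0 := by
    rw [hn3]
    exact (Nat.floor_pos.2 (by linarith)).ne'
  have hI2 : (I : ℝ) ≤ 4 * Real.log X := by
    have h1 : (2 : ℝ) ^ (Nat.log 2 n3) ≤ n3 := by exact_mod_cast Nat.pow_log_le_self 2 hn30
    have h2 : (n3 : ℝ) ≤ X ^ 2 := by
      have h3 : (n3 : ℝ) ≤ 3 * X := by rw [hn3]; exact Nat.floor_le (by positivity)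
      nlinarith
    have h3 := Real.log_le_log (by positivity) (h1.trans h2)
    rw [Real.log_pow, Real.log_pow] at h3
    have h4 := Real.log_two_gt_d9
    push_cast at h3
    have h5 : (Nat.log 2 n3 : ℝ) * 0.69 ≤ Nat.log 2 n3 * Real.log 2 :=
      mul_le_mul_of_nonneg_left (by linarith) (Nat.cast_nonneg _)
    rw [hI]
    push_cast
    linarith
  obtain ⟨T, hTd⟩ : ∃ T, T = X / (Real.log X) ^ (A + 3) := ⟨_, rfl⟩
  have hT0 : 0 ≤ T := by rw [hTd]; positivity
  -- the coefficients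
  obtain ⟨α', hα'⟩ : ∃ α' : ℕ → ℝ, α' = fun m => if m ≤ n3 then α m else 0 := ⟨_, rfl⟩
  obtain ⟨β', hβ'⟩ : ∃ β' : ℕ → ℝ, β' = fun m => if m ≤ n3 then β m else 0 := ⟨_, rfl⟩
  have hα'b : ∀ m, |α' m| ≤ tau m * Real.log X := by
    intro m
    rw [hα']
    by_cases hm : m ≤ n3
    · simp only [if_pos hm]; exact hα m
    · simp only [if_neg hm, abs_zero]
      unfold tau
      positivity
  have hβ'b : ∀ m, |β' m| ≤ tau m * Real.log X := by
    intro m
    rw [hβ']
    by_cases hm : m ≤ n3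
    · simp only [if_pos hm]; exact hβ m
    · simp only [if_neg hm, abs_zero]
      unfold tau
      positivity
  obtain ⟨E, hE⟩ : ∃ E : ℕ → ℕ → ℝ, E = fun m n => ∑ q ∈ S, c q * dl h W b (D0 X B) q (m * n) :=
    ⟨_, rfl⟩
  have hswap : ∀ (I J : Finset ℕ) (a b' : ℕ → ℝ), ∑ m ∈ I, ∑ n ∈ J, a m * b' n * E m n =
      ∑ q ∈ S, c q * ∑ m ∈ I, ∑ n ∈ J, a m * b' n * dl h W b (D0 X B) q (m * n) := by
    intro I J a b'
    simp only [hE, mul_sum]
    symm
    rw [sum_comm]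
    refine sum_congr rfl fun m _ => ?_
    rw [sum_comm]
    refine sum_congr rfl fun n _ => sum_congr rfl fun q _ => ?_
    ring
  -- one block
  have hblock : ∀ M N : ℕ, M0 ≤ M → M0 ≤ N →
      |∑ m ∈ Ioc M (2 * M), ∑ n ∈ Ioc N (2 * N),
        α' m * β' n * Phi (((m * n : ℕ) : ℝ) / X) * E m n| ≤ 6 * T := by
    intro M N hM hN
    have hMr : X ^ (1 / 3 : ℝ) / 16 ≤ M := hM0a.trans (by exact_mod_cast hM)
    have hNr : X ^ (1 / 3 : ℝ) / 16 ≤ N := hM0a.trans (by exact_mod_cast hN)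
    by_cases hc1 : X / 16 ≤ (M : ℝ) * N
    · by_cases hc2 : (M : ℝ) * N ≤ 16 * X
      · refine sep hX0 _ _ E α' β' T ?_ (fun m hm => by rw [mem_Ioc] at hm; omega)
          (fun n hn => by rw [mem_Ioc] at hn; omega)
          (fun m hm n hn => block_log hX0 hc1 hc2 hm hn)
        intro a b' ha hb'
        have ha2 : ∀ m, |a m| ≤ tau m * Real.log X := fun m => (ha m).trans (hα'b m)
        have hb2 : ∀ m, |b' m| ≤ tau m * Real.log X := fun m => (hb' m).trans (hβ'b m)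
        rw [hTd]
        by_cases hcN : (N : ℝ) ≤ 16 * X ^ (1 / 2 : ℝ)
        · obtain ⟨g, hg⟩ := hG M N hc1 hc2 hNr hcN
          rw [hswap]
          exact HX M N Q g hQ hg S hS c hc a b' (fun m _ => ha2 m) (fun n _ => hb2 n)
        · have hcM : (M : ℝ) ≤ 16 * X ^ (1 / 2 : ℝ) := by
            rw [not_le] at hcN
            have hx : X ^ (1 / 2 : ℝ) * X ^ (1 / 2 : ℝ) = X := by
              rw [← Real.rpow_add hX0]
              norm_num
            have hxp : 0 < X ^ (1 / 2 : ℝ) := by positivity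
            by_contra hcon
            rw [not_le] at hcon
            nlinarith [mul_pos hxp hxp]
          obtain ⟨g, hg⟩ := hG N M (by rw [mul_comm]; exact hc1) (by rw [mul_comm]; exact hc2) hMr hcM
          have h1 := HX N M Q g hQ hg S hS c hc b' a (fun m _ => hb2 m) (fun n _ => ha2 n)
          rw [← hswap, sum_comm] at h1
          refine le_trans (le_of_eq ?_) h1
          congr 1
          refine sum_congr rfl fun m _ => sum_congr rfl fun n _ => ?_
          have : E n m = E m n := by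
            simp only [hE]
            refine sum_congr rfl fun q _ => ?_
            rw [mul_comm n m]
          rw [this]
          ring
      · have : ∑ m ∈ Ioc M (2 * M), ∑ n ∈ Ioc N (2 * N),
            α' m * β' n * Phi (((m * n : ℕ) : ℝ) / X) * E m n = 0 := by
          refine sum_eq_zero fun m hm => sum_eq_zero fun n hn => ?_
          rw [mem_Ioc] at hm hn
          rw [Phi_high, mul_zero, zero_mul]
          rw [le_div_iff₀ hX0, Nat.cast_mul]
          rw [not_le] at hc2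
          have a1 : (M : ℝ) ≤ m := by exact_mod_cast hm.1.le
          have b1 : (N : ℝ) ≤ n := by exact_mod_cast hn.1.le
          have := mul_le_mul a1 b1 (Nat.cast_nonneg _) ((Nat.cast_nonneg M).trans a1)
          linarith
        rw [this, abs_zero]
        positivity
    · have : ∑ m ∈ Ioc M (2 * M), ∑ n ∈ Ioc N (2 * N),
          α' m * β' n * Phi (((m * n : ℕ) : ℝ) / X) * E m n = 0 := by
        refine sum_eq_zero fun m hm => sum_eq_zero fun n hn => ?_
        rw [mem_Ioc] at hm hn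
        have hm0 : 0 < m := by omega
        have hn0 : 0 < n := by omega
        rw [Phi_low (by positivity), mul_zero, zero_mul]
        rw [div_le_iff₀ hX0, Nat.cast_mul]
        rw [not_le] at hc1
        have a1 : (m : ℝ) ≤ 2 * M := by exact_mod_cast hm.2
        have b1 : (n : ℝ) ≤ 2 * N := by exact_mod_cast hn.2
        have := mul_le_mul a1 b1 (Nat.cast_nonneg _) (by positivity)
        linarith
      rw [this, abs_zero]
      positivity
  -- decomposition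
  have hdec : ∑ q ∈ S, c q * ∑ m ∈ Ioc M0 n3, ∑ n ∈ Ioc M0 n3,
      α m * β n * Phi (((m * n : ℕ) : ℝ) / X) * dl h W b (D0 X B) q (m * n) =
      ∑ i ∈ range I, ∑ j ∈ range I, ∑ m ∈ Ioc (2 ^ i * M0) (2 * (2 ^ i * M0)),
        ∑ n ∈ Ioc (2 ^ j * M0) (2 * (2 ^ j * M0)),
          α' m * β' n * Phi (((m * n : ℕ) : ℝ) / X) * E m n := by
    have h1 : ∑ q ∈ S, c q * ∑ m ∈ Ioc M0 n3, ∑ n ∈ Ioc M0 n3,
        α m * β n * Phi (((m * n : ℕ) : ℝ) / X) * dl h W b (D0 X B) q (m * n) =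
        ∑ m ∈ Ioc M0 n3, ∑ n ∈ Ioc M0 n3,
          α m * β n * Phi (((m * n : ℕ) : ℝ) / X) * E m n := by
      simp only [hE, mul_sum]
      rw [sum_comm]
      refine sum_congr rfl fun m _ => ?_
      rw [sum_comm]
      refine sum_congr rfl fun n _ => sum_congr rfl fun q _ => ?_
      ring
    have hsub : Ioc M0 n3 ⊆ Ioc M0 (2 ^ I * M0) := Ioc_subset_Ioc_right hI1
    have h2 : ∑ m ∈ Ioc M0 n3, ∑ n ∈ Ioc M0 n3,
          α m * β n * Phi (((m * n : ℕ) : ℝ) / X) * E m n =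
        ∑ m ∈ Ioc M0 (2 ^ I * M0), ∑ n ∈ Ioc M0 (2 ^ I * M0),
          α' m * β' n * Phi (((m * n : ℕ) : ℝ) / X) * E m n := by
      rw [← sum_subset hsub]
      · refine sum_congr rfl fun m hm => ?_
        rw [← sum_subset hsub]
        · refine sum_congr rfl fun n hn => ?_
          rw [mem_Ioc] at hm hn
          rw [hα', hβ']
          simp only [if_pos hm.2, if_pos hn.2]
        · intro n hn hn2
          rw [mem_Ioc] at hn hn2
          have : ¬ n ≤ n3 := fun h => hn2 ⟨hn.1, h⟩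
          rw [hβ']
          simp only [if_neg this, mul_zero, zero_mul]
      · intro m hm hm2
        rw [mem_Ioc] at hm hm2
        have : ¬ m ≤ n3 := fun h => hm2 ⟨hm.1, h⟩
        refine sum_eq_zero fun n _ => ?_
        rw [hα']
        simp only [if_neg this, zero_mul]
    rw [h1, h2, dyadic]
    refine sum_congr rfl fun i _ => ?_
    rw [sum_congr rfl fun m _ => dyadic M0 (fun n => α' m * β' n * Phi (((m * n : ℕ) : ℝ) / X) * E m n) I,
      sum_comm]
  have hmul : ∀ m n : ℕ, (((m * n : ℕ) : ℝ)) = ((m * n : ℕ) : ℝ) := fun _ _ => rfl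
  rw [hdec]
  calc |∑ i ∈ range I, ∑ j ∈ range I, ∑ m ∈ Ioc (2 ^ i * M0) (2 * (2 ^ i * M0)),
        ∑ n ∈ Ioc (2 ^ j * M0) (2 * (2 ^ j * M0)),
          α' m * β' n * Phi (((m * n : ℕ) : ℝ) / X) * E m n|
      ≤ ∑ i ∈ range I, ∑ j ∈ range I, 6 * T := by
        refine (abs_sum_le_sum_abs _ _).trans (sum_le_sum fun i _ => ?_)
        refine (abs_sum_le_sum_abs _ _).trans (sum_le_sum fun j _ => ?_)
        exact hblock _ _ (Nat.le_mul_of_pos_left _ (by positivity))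
          (Nat.le_mul_of_pos_left _ (by positivity))
    _ = (I : ℝ) ^ 2 * (6 * T) := by
        rw [sum_const, sum_const, card_range, nsmul_eq_mul, nsmul_eq_mul]
        ring
    _ ≤ (4 * Real.log X) ^ 2 * (6 * T) :=
        mul_le_mul_of_nonneg_right (pow_le_pow_left₀ (Nat.cast_nonneg _) hI2 2) (by positivity)
    _ = 96 / Real.log X * (X / (Real.log X) ^ A) := by
        rw [hTd, pow_add]
        field_simp
        ring
    _ ≤ 1 * (X / (Real.log X) ^ A) := by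
        refine mul_le_mul_of_nonneg_right ?_ (by positivity)
        rw [div_le_one hL]
        exact hX2
    _ = X / (Real.log X) ^ A := one_mul _

end Pool.Agent.Y674.ZB
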